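import Pool.Agent.Lib.MP_9a8698_nt.D7

/-!
MP_9a8698_nt, Q1 for all exponents `1 < α < 20/11`.
-/

set_option autoImplicit false

namespace Pool.Agent.Results.MP_9a8698_nt.TwentyElevenths

/-- Q1 for every `α` with `1 < α < 20/11`: with `ρ` the Dickman function, for every `ε > 0` there are
`δ > 0` and `K` such that for all `k ≥ K` and all `n` between `k^(α-δ)` and `k^(α+δ)` the share of
`i ∈ {1, ..., k}` such that `n + i` has a prime factor larger than `k` is within `ε` of `1 - ρ(α)`. -/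
theorem result :
    ∀ ρ : ℝ → ℝ, ContinuousOn ρ (Set.Ici 0) →
      (∀ u ∈ Set.Icc (0:ℝ) 1, ρ u = 1) →
      (∀ u : ℝ, 1 ≤ u → ρ u = 1 - ∫ t in (1:ℝ)..u, ρ (t - 1) / t) →
      ∀ α : ℝ, 1 < α → α < 20 / 11 → ∀ ε : ℝ, 0 < ε →
        ∃ δ : ℝ, 0 < δ ∧ ∃ K : ℕ, ∀ k n : ℕ, K ≤ k →
          (k : ℝ) ^ (α - δ) ≤ (n : ℝ) → (n : ℝ) ≤ (k : ℝ) ^ (α + δ) →
            |((((Finset.Icc 1 k).filter
                (fun i => ∃ p ∈ (n + i).primeFactors, k < p)).card : ℝ) / (k : ℝ))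
              - (1 - ρ α)| ≤ ε := by
  intro ρ _ h1 h2 α hα hα2 ε he
  exact Pool.Agent.Lib.MP_9a8698_nt.main ρ h1 h2 α hα hα2 ε he

end Pool.Agent.Results.MP_9a8698_nt.TwentyElevenths
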